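import Pool.Agent.H78.Apolar

/-! The largest regularity of an irredundant apolar scheme: `M(1,d) = 0`, `M(2,d) = d`,
and `M(n,d) = ∞` for `n ≥ 3`. -/

namespace Pool.Agent.Results.MP_254873_ag.Exact

open Pool.Agent.H78.Apolar

theorem result (d : ℕ) (hd : 1 ≤ d) :
    M 1 d = 0 ∧ M 2 d = d ∧ ∀ n ≥ 3, M n d = ⊤ := by
  refine ⟨M_one d, le_antisymm (M_two_le d) (M_two_ge d), fun n hn => ?_⟩
  obtain ⟨m, rfl⟩ : ∃ m, n = m + 3 := ⟨n - 3, by omega⟩
  exact M_big m d hd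

end Pool.Agent.Results.MP_254873_ag.Exact
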